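import Pool.Agent.TH679.DB.Main
import Pool.Agent.TH679.NC.Mat
import Pool.Agent.TH679.NC.Asym

/-!
# Which depth is too much for few registers and polynomial time

`NC ⊆ SC` would mean that each parallel computation with polynomially many processors and
polylogarithmic time can be replaced by a sequential one with polynomial time and, at the same time,
polylogarithmic space. We settle this for pure computations, over `min` and `+`, or over the
nonnegative real numbers with `+` and `*`. A parallel program has registers which hold such numbers;
in a round all registers are replaced at the same time by an input variable, a constant, an old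
value, or the sum or the product of two old values. (So a parallel program with `N` registers and
`r` rounds is a circuit of depth `r` and width `N`.) In each step of a sequential program only one
register is changed. Both kinds of programs may depend on the size of the input in any way.

Here the threshold is the depth `O(log n)`:

* A parallel program with `D log₂ n` rounds can be replaced by a sequential program with
  `D log₂ n + 1` registers and less than `2 n ^ D` steps.
* For each `ε > 0` there is `c > 0` such that for large `n` and each `D` between a constant and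
  `log₂ n` there is a shortest path problem with at most `n` edges, which a parallel program with
  `n ^ 3` registers and `D log₂ n` rounds solves over each semiring, but for which each sequential
  program with at most `n ^ (1 - ε)` registers has at least `n ^ (c D)` steps.

So for each `D = D(n)` which tends to infinity the depth `D log n` is not possible with polynomially
many steps and few registers, not even with `n ^ (1 - ε)` registers instead of polylogarithmically
many, and the number of steps is `n ^ Θ(D)` for each number of registers between `D log₂ n + 1` and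
`n ^ (1 - ε)`.

The graphs are layered graphs of De Bruijn type: the vertices of each column are the words of length
`d = ⌈4 / ε⌉` over `m` letters, there is an edge from a word to each word of the next column which
arises from it if the first letter is removed and a new last letter is added, and the number `T + 1`
of columns is about `2 ^ D`. The lower bound is the law of my result
`MP_e46137_lc.SparseShortestPaths`, which holds for all `T`, `m` and `d`.
-/

set_option autoImplicit false

namespace Pool.Agent.Results.MP_1a6d78_lc.DepthThreshold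

open Filter
open Pool.Agent.TH679.DB
open Pool.Agent.TH679.NC
open Pool.Agent.H564R3.PW (Instr exec)
open scoped NNReal

theorem card_word (m d : ℕ) : Fintype.card (Word m d) = m ^ d := by
  show Fintype.card (Fin d → Fin m) = m ^ d
  rw [Fintype.card_fun, Fintype.card_fin, Fintype.card_fin]

theorem card_edge {m d : ℕ} (hd : 1 ≤ d) (T : ℕ) :
    Fintype.card (Edge T (Shift (m := m) (d := d))) ≤ T * m ^ (d + 1) := by
  have h := Fintype.card_le_of_injective
    (fun e : Edge T (Shift (m := m) (d := d)) => (e.1.1, e.1.2.1, e.1.2.2 ⟨d - 1, by omega⟩)) (by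
      rintro ⟨⟨c, u, v⟩, h1⟩ ⟨⟨c', u', v'⟩, h2⟩ h
      simp only [Prod.mk.injEq] at h
      obtain ⟨rfl, rfl, h3⟩ := h
      have h4 : v = v' := by
        funext i
        by_cases hi : i.val + 1 < d
        · exact (h1 i ⟨i.val + 1, hi⟩ rfl).trans (h2 i ⟨i.val + 1, hi⟩ rfl).symm
        · have h5 : i = ⟨d - 1, by omega⟩ := Fin.ext (by
            have := i.2
            show i.val = d - 1
            omega)
          rw [h5]
          exact h3
      subst h4
      rfl)
  rw [Fintype.card_prod, Fintype.card_prod, Fintype.card_fin, Fintype.card_fin, card_word] at h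
  rwa [pow_succ]

/-- (1) A parallel program with `r` rounds, and with any number of registers, can be replaced by a
sequential program with `r + 1` registers and less than `2 ^ (r + 1)` steps.

(2) For each `ε` there are `c > 0`, `d` and `D₀` such that for all large `n` and all `D` between `D₀`
and `log₂ n` there are `T` and `m` such that for the layered graph with the words of length `d` over
`m` letters and `T + 1` columns, which has at most `n` edges:

(a) over each commutative semiring there is a parallel program with at most `n ^ 3` registers and at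
most `D log₂ n` rounds which computes the sum over the paths from the first to the last column of
the products of the weights (the length of a shortest path),

(b) there also is a sequential program with at most `D log₂ n + 1` registers and less than `2 n ^ D`
steps,

(c) but each sequential program with at most `n ^ (1 - ε)` registers which computes the length of a
shortest path for all weights in the natural numbers (the sum over the paths of the products of the
weights, for all nonnegative real weights) has at least `n ^ (c D)` steps. -/
theorem result :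
    (∀ (R X ρ : Type) [CommSemiring R] (G : ℕ → ρ → Gate R X ρ) (r : ℕ) (o : ρ),
      ∃ p : List (Instr R X (Fin (r + 1))), p.length < 2 ^ (r + 1) ∧
        ∀ w : X → R, exec w p 0 = par w G r o) ∧
    ∀ ε : ℝ, 0 < ε → ε ≤ 1 → ∃ (c : ℝ) (d D₀ : ℕ), 0 < c ∧ 1 ≤ d ∧
      ∀ᶠ n : ℕ in atTop, ∀ D : ℕ, D₀ ≤ D → (D : ℝ) ≤ Real.logb 2 n → ∃ T m : ℕ,
        Fintype.card (Edge T (Shift (m := m) (d := d))) ≤ n ∧
        (∀ (R : Type) [CommSemiring R], ∃ (ρ : Type) (_ : Fintype ρ)
          (G : ℕ → ρ → Gate R (Edge T (Shift (m := m) (d := d))) ρ) (r : ℕ) (o : ρ),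
          Fintype.card ρ ≤ n ^ 3 ∧ (r : ℝ) ≤ D * Real.logb 2 n ∧
          ∀ w : Edge T (Shift (m := m) (d := d)) → R, par w G r o = pathSum w) ∧
        (∀ (R : Type) [CommSemiring R], ∃ (r : ℕ)
          (p : List (Instr R (Edge T (Shift (m := m) (d := d))) (Fin (r + 1)))),
          (r : ℝ) ≤ D * Real.logb 2 n ∧ (p.length : ℝ) < 2 * (n : ℝ) ^ D ∧
          ∀ w : Edge T (Shift (m := m) (d := d)) → R, exec w p 0 = pathSum w) ∧
        ∀ (ρ : Type) [Fintype ρ] [DecidableEq ρ] (o : ρ),
          (Fintype.card ρ : ℝ) ≤ (n : ℝ) ^ (1 - ε) →
          (∀ p : List (Instr (Tropical (WithTop ℝ)) (Edge T (Shift (m := m) (d := d))) ρ),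
            SolvesMin p o → (n : ℝ) ^ (c * D) ≤ p.length) ∧
          (∀ p : List (Instr ℝ≥0 (Edge T (Shift (m := m) (d := d))) ρ),
            SolvesSum p o → (n : ℝ) ^ (c * D) ≤ p.length) := by
  refine ⟨fun R X ρ _ G r o => sim G r o, fun ε hε hε1 => ?_⟩
  obtain ⟨d, D₀, hd, hev⟩ := params hε hε1
  refine ⟨ε ^ 2 / 512, d, D₀, by positivity, hd, ?_⟩
  filter_upwards [hev, eventually_ge_atTop 1] with n hn hn1 D hD hDn
  obtain ⟨t, a, h0, h1, h2, h3⟩ := hn D hD hDn
  have hn0 : (0 : ℝ) < n := by exact_mod_cast hn1
  have hm : ∀ e : ℕ, (2 ^ a) ^ e = 2 ^ (a * e) := fun e => (pow_mul 2 a e).symm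
  have hm1 : 1 ≤ 2 ^ a := Nat.one_le_two_pow
  have hW : Fintype.card (Word (2 ^ a) d) ≤ 2 ^ (a * d) := by rw [card_word, hm]
  have hW1 : Word (2 ^ a) d := fun _ => ⟨0, hm1⟩
  have hpar : ∀ (R : Type) [CommSemiring R], ∃ (ρ : Type) (_ : Fintype ρ)
      (G : ℕ → ρ → Gate R (Edge (2 ^ t) (Shift (m := 2 ^ a) (d := d))) ρ) (r : ℕ) (o : ρ),
      Fintype.card ρ ≤ n ^ 3 ∧ (r : ℝ) ≤ D * Real.logb 2 n ∧
      ∀ w : Edge (2 ^ t) (Shift (m := 2 ^ a) (d := d)) → R, par w G r o = pathSum w := by
    intro R _
    refine ⟨Rg (Word (2 ^ a) d) t (a * d), inferInstance, gates R t (a * d) Shift,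
      1 + (t + 2) * (a * d + 1), (fi t 0, hW1, hW1, fi (a * d) 0), ?_, h2,
      fun w => par_path hW w hW1 hW1⟩
    unfold Rg
    rw [Fintype.card_prod, Fintype.card_prod, Fintype.card_prod, Fintype.card_fin,
      Fintype.card_fin, card_word, hm]
    have e1 : 2 ^ t * 2 ^ (a * d) ≤ n := by
      refine le_trans (Nat.mul_le_mul_left _ (Nat.pow_le_pow_right (by norm_num) ?_)) h1
      exact Nat.mul_le_mul_left _ (Nat.le_succ d)
    have e2 : 2 ^ (a * d) ≤ n := le_trans (Nat.le_mul_of_pos_left _ (Nat.two_pow_pos t)) e1
    calc 2 ^ t * (2 ^ (a * d) * (2 ^ (a * d) * 2 ^ (a * d)))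
        = (2 ^ t * 2 ^ (a * d)) * (2 ^ (a * d) * 2 ^ (a * d)) := by ring
      _ ≤ n * (n * n) := Nat.mul_le_mul e1 (Nat.mul_le_mul e2 e2)
      _ = n ^ 3 := by ring
  refine ⟨2 ^ t, 2 ^ a, ?_, hpar, ?_, ?_⟩
  · refine (card_edge hd _).trans ?_
    rw [hm]
    exact h1
  · intro R _
    obtain ⟨ρ, _, G, r, o, _, k2, k3⟩ := hpar R
    obtain ⟨p, m1, m2⟩ := sim G r o
    refine ⟨r, p, k2, ?_, fun w => (m2 w).trans (k3 w)⟩
    have e1 : (p.length : ℝ) < (2 : ℝ) ^ (r + 1) := by exact_mod_cast m1
    refine lt_of_lt_of_le e1 ?_
    rw [pow_succ, mul_comm]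
    refine mul_le_mul_of_nonneg_left ?_ (by norm_num)
    have e2 : (n : ℝ) ^ D = (2 : ℝ) ^ (D * Real.logb 2 n) := by
      rw [mul_comm, Real.rpow_mul (by norm_num), Real.rpow_logb (by norm_num) (by norm_num) hn0,
        Real.rpow_natCast]
    rw [e2, ← Real.rpow_natCast]
    exact Real.rpow_le_rpow_of_exponent_le (by norm_num) k2
  · intro ρ _ _ o hK
    refine ⟨fun p hp => ?_, fun p hp => ?_⟩
    · refine h3 _ _ (lawMin (n := 1) le_rfl hm1 hd (by rw [mul_one]; exact h0) p o hp).1 hK
        fun q hq hqt => ?_
      have := (lawMin hq hm1 hd hqt p o hp).2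
      rwa [hm] at this
    · refine h3 _ _ (lawSum (n := 1) le_rfl hm1 hd (by rw [mul_one]; exact h0) p o hp).1 hK
        fun q hq hqt => ?_
      have := (lawSum hq hm1 hd hqt p o hp).2
      rwa [hm] at this

end Pool.Agent.Results.MP_1a6d78_lc.DepthThreshold
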