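import Pool.Agent.TH706.DT.Main

/-!
# Which depth is too much for few registers, a stack and polynomial time

`NC ⊆ SC` would mean that each parallel computation with polynomially many processors and
polylogarithmic time can be replaced by a sequential one with polynomial time and, at the same time,
polylogarithmic space.  For machines, a stack (pushdown store) of unlimited height, which is not
counted as space, gives all of `P` if the time is not bounded, but by a theorem of Cook polynomial
time, logarithmic space and a stack stay within `SC`.

We consider pure computations, over `min` and `+`, or over the nonnegative real numbers with `+`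
and `*`, and sequential programs which have, besides the registers, a stack of unlimited height for
such numbers.  helper679's result `DepthThreshold` treats programs without a stack.

* With a stack a parallel program with `r` rounds can be replaced by a sequential program with only
  two registers and less than `4 * 2 ^ r` steps (recursion).  So depth `D log₂ n` is possible with two
  registers, a stack and `4 n ^ D` steps.
* For each `ε > 0` there is `c > 0` such that for large `n` and each `D` between a constant and
  `log₂ n` there is a shortest path problem with at most `n` edges, which a parallel program with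
  `n ^ 3` registers and `D log₂ n` rounds solves over each semiring, but for which each sequential
  program with at most `n ^ (1 - ε)` registers and a stack of unlimited height has at least
  `n ^ (c D)` steps.

So the depth `O(log n)` is the threshold for polynomial time and few registers, with a stack too:
storing arbitrarily many intermediate results on a stack does not help beyond the depth `O(log n)`,
and the number of steps is `n ^ Θ(D)` for each number of registers between `2` and `n ^ (1 - ε)`.

*Proof of the lower bound.*  Elimination of the stack (`Pool.Agent.TH706.SK.simulate_eps`), which is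
the analogue of Cook's theorem: `K` registers, a stack and `L` steps are replaced by
`C K (log L + 1)` registers and `C L ^ 2` steps.
-/

set_option autoImplicit false

namespace Pool.Agent.Results.MP_1a6d78_lc.DepthThresholdStack

open Filter
open Pool.Agent.TH679.DB
open Pool.Agent.TH679.NC
open Pool.Agent.TH706.SK (SInstr sexec simulate_eps)
open Pool.Agent.H564R3.PW (Instr exec)
open scoped NNReal

/-- The (min,+) program `p` with a stack, whose constants are real numbers or infinity, writes into
register `o` the length of a shortest path from the first to the last column, for all weights in the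
natural numbers. -/
def StackSolvesMin {T : ℕ} {ν : Type} [Fintype ν] [DecidableEq ν] {ok : ν → ν → Prop}
    [DecidableRel ok] {ρ : Type} [DecidableEq ρ]
    (p : List (SInstr (Tropical (WithTop ℝ)) (Edge T ok) ρ)) (o : ρ) : Prop :=
  ∀ w : Edge T ok → ℕ,
    sexec (fun x => Tropical.trop (((w x : ℕ) : ℝ) : WithTop ℝ)) p o =
      pathSum (fun x => Tropical.trop (((w x : ℕ) : ℝ) : WithTop ℝ))

/-- The program `p` with a stack over the nonnegative reals computes the sum over all paths from the
first to the last column of the products of the weights. -/
def StackSolvesSum {T : ℕ} {ν : Type} [Fintype ν] [DecidableEq ν] {ok : ν → ν → Prop}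
    [DecidableRel ok] {ρ : Type} [DecidableEq ρ]
    (p : List (SInstr ℝ≥0 (Edge T ok) ρ)) (o : ρ) : Prop :=
  ∀ w : Edge T ok → ℝ≥0, sexec w p o = pathSum w

/-- (1) A parallel program with `r` rounds, and with any number of registers, can be replaced by a
sequential program with two registers, a stack and less than `4 * 2 ^ r` steps.

(2) For each `ε` there are `c > 0`, `d` and `D₀` such that for all large `n` and all `D` between `D₀`
and `log₂ n` there are `T` and `m` such that for the layered graph with the words of length `d` over
`m` letters and `T + 1` columns, which has at most `n` edges: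

(a) over each commutative semiring there is a parallel program with at most `n ^ 3` registers and at
most `D log₂ n` rounds which computes the sum over the paths from the first to the last column of
the products of the weights (the length of a shortest path),

(b) there also is a sequential program with two registers, a stack and less than `4 n ^ D` steps,

(c) but each sequential program with at most `n ^ (1 - ε)` registers and a stack which computes the
length of a shortest path for all weights in the natural numbers (the sum over the paths of the
products of the weights, for all nonnegative real weights) has at least `n ^ (c D)` steps. -/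
theorem result :
    (∀ (R X ρ : Type) [CommSemiring R] (G : ℕ → ρ → Gate R X ρ) (r : ℕ) (o : ρ),
      ∃ p : List (SInstr R X (Fin 2)), p.length < 4 * 2 ^ r ∧
        ∀ w : X → R, sexec w p 0 = par w G r o) ∧
    ∀ ε : ℝ, 0 < ε → ε ≤ 1 → ∃ (c : ℝ) (d D₀ : ℕ), 0 < c ∧ 1 ≤ d ∧
      ∀ᶠ n : ℕ in atTop, ∀ D : ℕ, D₀ ≤ D → (D : ℝ) ≤ Real.logb 2 n → ∃ T m : ℕ,
        Fintype.card (Edge T (Shift (m := m) (d := d))) ≤ n ∧
        (∀ (R : Type) [CommSemiring R], ∃ (ρ : Type) (_ : Fintype ρ)
          (G : ℕ → ρ → Gate R (Edge T (Shift (m := m) (d := d))) ρ) (r : ℕ) (o : ρ),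
          Fintype.card ρ ≤ n ^ 3 ∧ (r : ℝ) ≤ D * Real.logb 2 n ∧
          ∀ w : Edge T (Shift (m := m) (d := d)) → R, par w G r o = pathSum w) ∧
        (∀ (R : Type) [CommSemiring R],
          ∃ p : List (SInstr R (Edge T (Shift (m := m) (d := d))) (Fin 2)),
          (p.length : ℝ) < 4 * (n : ℝ) ^ D ∧
          ∀ w : Edge T (Shift (m := m) (d := d)) → R, sexec w p 0 = pathSum w) ∧
        ∀ (ρ : Type) [Fintype ρ] [DecidableEq ρ] (o : ρ),
          (Fintype.card ρ : ℝ) ≤ (n : ℝ) ^ (1 - ε) →
          (∀ p : List (SInstr (Tropical (WithTop ℝ)) (Edge T (Shift (m := m) (d := d))) ρ),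
            StackSolvesMin p o → (n : ℝ) ^ (c * D) ≤ p.length) ∧
          (∀ p : List (SInstr ℝ≥0 (Edge T (Shift (m := m) (d := d))) ρ),
            StackSolvesSum p o → (n : ℝ) ^ (c * D) ≤ p.length) := by
  refine ⟨fun R X ρ _ G r o => Pool.Agent.TH706.DT.ssim G r o, fun ε hε hε1 => ?_⟩
  obtain ⟨c, d, D₀, hc, hd, hev⟩ :=
    Pool.Agent.Results.MP_1a6d78_lc.DepthThreshold.result.2 (ε / 2) (by positivity) (by linarith)
  obtain ⟨c', hc'⟩ : ∃ c' : ℝ, c' = min c 1 := ⟨_, rfl⟩
  have hc0 : 0 < c' := by rw [hc']; exact lt_min hc one_pos
  have hc1 : c' ≤ 1 := by rw [hc']; exact min_le_right _ _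
  have hcc : c' ≤ c := by rw [hc']; exact min_le_left _ _
  obtain ⟨C, hC⟩ := simulate_eps 1 one_pos
  refine ⟨c' / 4, d, max D₀ 1, by positivity, hd, ?_⟩
  filter_upwards [hev, Pool.Agent.TH706.DT.asym hε hc0 hc1 C, eventually_ge_atTop 1] with
    n h1 h2 hn1 D hD hDn
  obtain ⟨T, m, g1, g2, -, g4⟩ := h1 D (le_trans (le_max_left _ _) hD) hDn
  have hn0 : (0 : ℝ) < n := by exact_mod_cast hn1
  have hn1' : (1 : ℝ) ≤ n := by exact_mod_cast hn1
  refine ⟨T, m, g1, g2, ?_, ?_⟩
  · intro R _
    obtain ⟨ρ, _, G, r, o, _, k2, k3⟩ := g2 R
    obtain ⟨p, m1, m2⟩ := Pool.Agent.TH706.DT.ssim G r o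
    refine ⟨p, ?_, fun w => (m2 w).trans (k3 w)⟩
    have e1 : (p.length : ℝ) < 4 * (2 : ℝ) ^ r := by exact_mod_cast m1
    refine lt_of_lt_of_le e1 ?_
    apply mul_le_mul_of_nonneg_left _ (by norm_num)
    calc (2 : ℝ) ^ r = (2 : ℝ) ^ (r : ℝ) := (Real.rpow_natCast _ _).symm
      _ ≤ (2 : ℝ) ^ (D * Real.logb 2 n) := Real.rpow_le_rpow_of_exponent_le (by norm_num) k2
      _ = (n : ℝ) ^ D := by
          rw [mul_comm, Real.rpow_mul (by norm_num), Real.rpow_logb (by norm_num) (by norm_num) hn0,
            Real.rpow_natCast]
  · intro ρ _ _ o hK
    have hmono : ∀ l : ℝ, (n : ℝ) ^ (c * D) ≤ l → (n : ℝ) ^ (c' * D) ≤ l := fun l hl =>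
      le_trans (Real.rpow_le_rpow_of_exponent_le hn1'
        (mul_le_mul_of_nonneg_right hcc (Nat.cast_nonneg _))) hl
    refine ⟨fun p hp => ?_, fun p hp => ?_⟩
    · obtain ⟨S, z, q, k1, k2, k3⟩ := hC _ _ ρ p
      refine h2 D (le_trans (le_max_right _ _) hD) hDn (Fintype.card ρ) p.length S q.length hK k1 k2
        fun hKS => hmono _ ((g4 (ρ × Fin S) (o, z) ?_).1 q fun w => ?_)
      · rw [Fintype.card_prod, Fintype.card_fin]
        exact hKS
      · rw [k3]
        exact hp w
    · obtain ⟨S, z, q, k1, k2, k3⟩ := hC _ _ ρ p
      refine h2 D (le_trans (le_max_right _ _) hD) hDn (Fintype.card ρ) p.length S q.length hK k1 k2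
        fun hKS => hmono _ ((g4 (ρ × Fin S) (o, z) ?_).2 q fun w => ?_)
      · rw [Fintype.card_prod, Fintype.card_fin]
        exact hKS
      · rw [k3]
        exact hp w

end Pool.Agent.Results.MP_1a6d78_lc.DepthThresholdStack
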