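import Pool.Agent.TH668.Peb.L3

/-!
# SC against NC for programs which read few letters: time and space are those of the pebble game

For a directed acyclic graph `G` with in- and outdegrees at most `d` (`Dag`, `DegLe`) and a node `v₀`
without parents we consider the function `nodeBit`: every node has a table with `k = 2 ^ ℓ` letters
of `Fin k` (so the variables are `G.Γ × Fin k`, and there are `N` of them), the value of a node is
the entry of its table whose address is the sum modulo `k` of the values of its children, and the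
function is the lowest bit of the value of `v₀`. It has circuits of polynomial size and of depth
`O(H log N)`, `H` being the depth of the graph; so the functions of graphs of polylogarithmic depth
are in (nonuniform) NC.

We show for EVERY such graph that the deterministic programs for this function which read
`N ^ (1 - δ)` different letters are the pebbling strategies of the graph, time and space taken
simultaneously:

* a pebbling of `v₀` with `p` pebbles and `t` placements gives a program of log size
  `log t + p log N` with `t` steps which reads at most `|G| ≤ N ^ (δ / 8)` letters;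
* a program of log size `c m log N` (`c = δ / 8`) which reads on average less than `N ^ (1 - δ)`
  letters and makes less than `N ^ (-c) τ / 2` steps on average gives a pebbling of `v₀` with
  `m d ^ 2` pebbles and less than `τ` placements, even if the program is right only on slightly more
  than half of the inputs.

Hence for a family of graphs of bounded degree the following are equivalent: simultaneously
polynomial time and polylogarithmic space (SC) for programs which are always right and read
`N ^ (δ / 8)` letters; the same for programs which are right on a fraction of `1 / 2 + N ^ (-c)` of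
the inputs and read less than `N ^ (1 - δ)` letters on average; pebbling with polylogarithmically
many pebbles and polynomially many placements. So in this model all time-space tradeoffs of the
pebble game hold for arbitrary programs. The starting files `TimeSpaceFewReads` (MP_1a6d78_lc) and
`DepthTimeLaw` (MP_2af48a_lc) have lower bounds for two special networks.
-/

set_option autoImplicit false

namespace Pool.Agent.Results.MP_1a6d78_lc.PebblingLaw

open Finset
open Pool.Agent.W997.SR
open Pool.Agent.W997.TS (DBP bit)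
open Pool.Agent.W997.DB (ByCircuit ByProgram HardReadsOrTime)
open Pool.Agent.TH668.Peb

/-- The nodes `v i` can be pebbled with polylogarithmically many pebbles and polynomially many
placements. -/
def PebblesSC {ι : Type} (G : ι → Dag) (v : ∀ i, (G i).Γ) (N : ι → ℝ) : Prop :=
  ∃ a : ℕ, ∀ i, ∃ p t : ℕ, (p : ℝ) ≤ Real.log (N i) ^ a ∧ (t : ℝ) ≤ N i ^ a ∧
    (G i).Pebbles (v i) p t

/-- The functions are computed by deterministic programs of polylogarithmic log size (space) in
polynomial time which read at most `N ^ c` different letters. -/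
def ExactSC {ι : Type} (G : ι → Dag) (v : ∀ i, (G i).Γ) (ℓ : ι → ℕ) (N : ι → ℝ) (c : ℝ) : Prop :=
  ∃ a : ℕ, ∀ i, ByProgram (nodeBit (G i) (ℓ i) (v i)) (Real.log (N i) ^ a) (N i ^ a) (N i ^ c)

/-- There are deterministic programs of polylogarithmic log size which halt on all inputs, are right
on a fraction of at least `1 / 2 + N ^ (-c)` of them, read on average less than `N ^ (1 - δ)`
different letters and make on average less than polynomially many steps. -/
def AverageSC {ι : Type} (G : ι → Dag) (v : ∀ i, (G i).Γ) (ℓ : ι → ℕ) (N : ι → ℝ) (c δ : ℝ) :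
    Prop :=
  ∃ a : ℕ, ∀ i, ∃ (P : DBP ((G i).Var (2 ^ ℓ i)) (2 ^ ℓ i))
    (T M : ((G i).Var (2 ^ ℓ i) → Fin (2 ^ ℓ i)) → ℕ)
    (R : ((G i).Var (2 ^ ℓ i) → Fin (2 ^ ℓ i)) → Bool), Real.log P.size ≤ Real.log (N i) ^ a ∧
    (∀ x, P.Run x (T x) (M x) (R x)) ∧
    (1 / 2 + N i ^ (-c)) * Fintype.card ((G i).Var (2 ^ ℓ i) → Fin (2 ^ ℓ i)) ≤
      (univ.filter (fun x => R x = nodeBit (G i) (ℓ i) (v i) x)).card ∧
    ∑ x, (M x : ℝ) < N i ^ (1 - δ) * Fintype.card ((G i).Var (2 ^ ℓ i) → Fin (2 ^ ℓ i)) ∧
    ∑ x, (T x : ℝ) < N i ^ a * Fintype.card ((G i).Var (2 ^ ℓ i) → Fin (2 ^ ℓ i))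

/-- (1) The finite law, for every graph, node `v₀` and alphabet `Fin k`: a pebbling with `p` pebbles
and `t` placements gives a program with `t * k ^ p` states and `t` steps which reads at most `|G|`
variables; conversely, if `k` is even, the degrees are at most `d` and `v₀` has no parent, a program
with `S` states which agrees with the function on a fraction of at least `1 / 2 + γ` of the inputs,
where `|G| r / k + S (|G| r / k) ^ m ≤ γ`, reads on average at least `γ / 2 * (r + 1)` variables, or
makes on average at least `γ / 2 * τ` steps, or `v₀` can be pebbled with `m * d ^ 2` pebbles and less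
than `τ` placements.

(2) Let `0 < δ ≤ 4 / 5`, `c = δ / 8`, `β ≥ 8 / δ`, `|G| ≤ 2 ^ L`, `k = 2 ^ (β L)` and `N` the number
of variables. Then `|G| ≤ N ^ c`, the function is computed by circuits of size `N ^ (d + 2)` and depth
`5 d (H + 2) log N` if the ranks of the nodes are at most `H`, pebblings with `p` pebbles and `t`
placements give programs of log size `log t + p log N` and time `t`, and if there is no pebbling with
`m * d ^ 2` pebbles and less than `τ` placements, then programs of log size `c * m * log N` which are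
right on a fraction of at least `1 / 2 + N ^ (-c)` read on average at least `N ^ (1 - δ)` variables or
make on average at least `N ^ (-c) / 2 * τ` steps.

(3) For every family of graphs with degrees at most `d`, with these parameters, SC-type programs
exist if and only if there are pebblings with polylogarithmically many pebbles and polynomially many
placements; it does not matter whether the programs are exact or right only on slightly more than
half of the inputs, on average. -/
theorem result :
    (∀ (G : Dag) (v₀ : G.Γ) (k : ℕ) [NeZero k],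
      (∀ p t : ℕ, G.Pebbles v₀ p t → ∃ P : DBP (G.Var k) k, P.size ≤ t * k ^ p ∧
        ∀ x, ∃ r ≤ Fintype.card G.Γ, P.Run x t r (bit (Dag.value x v₀))) ∧
      (∀ d : ℕ, Even k → G.DegLe d → 1 ≤ d → (∀ v, v₀ ∉ G.kid v) →
        ∀ (m r τ : ℕ) (γ : ℝ) (P : DBP (G.Var k) k) (T M : (G.Var k → Fin k) → ℕ)
          (R : (G.Var k → Fin k) → Bool), (∀ x, P.Run x (T x) (M x) (R x)) →
        ((Fintype.card G.Γ * r : ℕ) / (k : ℝ)) +
          P.size * ((Fintype.card G.Γ * r : ℕ) / (k : ℝ)) ^ m ≤ γ →
        (1 / 2 + γ) * Fintype.card (G.Var k → Fin k) ≤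
          (univ.filter (fun x => R x = bit (Dag.value x v₀))).card →
        γ / 2 * (r + 1) * Fintype.card (G.Var k → Fin k) ≤ ∑ x, (M x : ℝ) ∨
        γ / 2 * τ * Fintype.card (G.Var k → Fin k) ≤ ∑ x, (T x : ℝ) ∨
        ∃ t < τ, G.Pebbles v₀ (m * d ^ 2) t)) ∧
    (∀ (δ : ℝ) (β d : ℕ), 0 < δ → δ ≤ 4 / 5 → 8 ≤ δ * β → 1 ≤ d →
      ∀ (G : Dag) (v₀ : G.Γ) (L H : ℕ), G.DegLe d → 1 ≤ L → Fintype.card G.Γ ≤ 2 ^ L →
      (∀ v, G.rk v ≤ H) → (∀ v, v₀ ∉ G.kid v) → ∀ ℓ : ℕ, ℓ = β * L →
      ∀ N : ℝ, N = Fintype.card (G.Var (2 ^ ℓ)) →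
        (Fintype.card G.Γ : ℝ) ≤ N ^ (δ / 8) ∧
        ByCircuit (nodeBit G ℓ v₀) (N ^ (d + 2)) (5 * d * (H + 2) * Real.log N) ∧
        (∀ p t : ℕ, G.Pebbles v₀ p t →
          ByProgram (nodeBit G ℓ v₀) (Real.log t + p * Real.log N) t (Fintype.card G.Γ)) ∧
        ∀ m τ : ℕ, 1 ≤ m → (∀ t < τ, ¬ G.Pebbles v₀ (m * d ^ 2) t) →
          HardReadsOrTime (nodeBit G ℓ v₀) (δ / 8 * m * Real.log N) (N ^ (-(δ / 8)))
            (N ^ (1 - δ)) (N ^ (-(δ / 8)) / 2 * τ)) ∧
    ∀ (δ : ℝ) (β d : ℕ), 0 < δ → δ ≤ 4 / 5 → 8 ≤ δ * β → 1 ≤ d →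
      ∀ (ι : Type) (G : ι → Dag) (v : ∀ i, (G i).Γ) (L ℓ : ι → ℕ) (N : ι → ℝ),
      (∀ i, (G i).DegLe d ∧ (∀ u, v i ∉ (G i).kid u) ∧ 1 ≤ L i ∧
        Fintype.card (G i).Γ ≤ 2 ^ L i ∧ ℓ i = β * L i ∧
        N i = Fintype.card ((G i).Var (2 ^ ℓ i))) →
      (PebblesSC G v N ↔ ExactSC G v ℓ N (δ / 8)) ∧
      (PebblesSC G v N ↔ AverageSC G v ℓ N (δ / 8) δ) := by
  refine ⟨?_, ?_, ?_⟩
  · intro G v₀ k _
    refine ⟨fun p t hw => Dag.program v₀ p t hw, ?_⟩
    intro d hk hd hd1 htop m r τ γ P T M R hrun hfail hag
    by_cases hno : ∃ t < τ, G.Pebbles v₀ (m * d ^ 2) t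
    · exact Or.inr (Or.inr hno)
    · push Not at hno
      have key := (G.net k).law_avg2 m r τ γ hk NeZero.one_le P v₀ htop
        (fun x => Dag.value x) (fun x v => Dag.value_eq' x v)
        (by
          intro z l hg
          by_contra hcon
          push Not at hcon
          obtain ⟨t', h5, h6⟩ := Dag.wins_of_good P z v₀ m d hd hd1 l hg
          exact hno t' (by omega) h6) T M R hrun hfail hag
      rcases key with h | h
      · exact Or.inl h
      · exact Or.inr (Or.inl h)
  · intro δ β d h0 h1 hβ hd1 G v₀ L H hd hL hcard hH htop ℓ hℓ N hN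
    have P : Par G d L β ℓ δ N :=
      { hd := hd, hd1 := hd1, hδ0 := h0, hδ1 := h1, hβ := hβ, hL := hL, hcard := hcard, hℓ := hℓ,
        hN := hN, hne := Fintype.card_pos_iff.2 ⟨v₀⟩ }
    exact ⟨P.card_le, P.circuits H hH v₀, fun p t hw => P.upper v₀ p t hw,
      fun m τ hm hno => P.lower v₀ htop m τ hm hno⟩
  · intro δ β d h0 h1 hβ hd1 ι G v L ℓ N hall
    have P : ∀ i, Par (G i) d (L i) β (ℓ i) δ (N i) := fun i =>
      { hd := (hall i).1, hd1 := hd1, hδ0 := h0, hδ1 := h1, hβ := hβ, hL := (hall i).2.2.1,
        hcard := (hall i).2.2.2.1, hℓ := (hall i).2.2.2.2.1, hN := (hall i).2.2.2.2.2,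
        hne := Fintype.card_pos_iff.2 ⟨v i⟩ }
    have e1 : PebblesSC G v N → ExactSC G v ℓ N (δ / 8) := by
      rintro ⟨a, ha⟩
      refine ⟨a + 2, fun i => ?_⟩
      obtain ⟨p, t, hp, ht, hw⟩ := ha i
      exact (P i).ab (v i) a p t hp ht hw
    have e2 : ExactSC G v ℓ N (δ / 8) → AverageSC G v ℓ N (δ / 8) δ := by
      rintro ⟨a, ha⟩
      refine ⟨a + 1, fun i => ?_⟩
      have h2 := (P i).bc (v i) a (ha i)
      unfold HardReadsOrTime at h2
      push Not at h2
      obtain ⟨Q, T, M, R, h3, h4, h5, h6, h7⟩ := h2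
      exact ⟨Q, T, M, R, h3, h4, h5, h6, h7⟩
    have e3 : AverageSC G v ℓ N (δ / 8) δ → PebblesSC G v N := by
      rintro ⟨a, ha⟩
      obtain ⟨A, hA⟩ := pow_unbounded_of_one_lt ((8 / δ + 2) * (d : ℝ) ^ 2)
        (by norm_num : (1 : ℝ) < 5)
      refine ⟨a + A + 2, fun i => ?_⟩
      refine (P i).ca (v i) (hall i).2.1 a A hA.le ?_
      intro hH
      obtain ⟨Q, T, M, R, h3, h4, h5, h6, h7⟩ := ha i
      rcases hH Q T M R h3 h4 h5 with h8 | h8
      · linarith
      · linarith
    exact ⟨⟨e1, fun h => e3 (e2 h)⟩, ⟨fun h => e2 (e1 h), e3⟩⟩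

end Pool.Agent.Results.MP_1a6d78_lc.PebblingLaw
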