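import Pool.Agent.TH708.Shr.Vc

/-!
# Narrow circuits with little sharing are not shallow circuits with little sharing

SC is the class of the circuits of polynomial size and polylogarithmic width, NC the class of the
circuits of polynomial size and polylogarithmic depth. Here an AND gate shares an input bit `y i` if
it occurs below two different inputs of the gate, and we consider circuits in which each AND gate
shares at most `μ` of the `k` bits `y`. The function: is the set of vertices given by `y` a vertex
cover of the graph `G` with `k` vertices (whose adjacency matrix is the other part of the input)?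

(1) There are circuits with `6 k ^ 2` nodes and constant width (all inputs of a gate of fan-in two
are among the last six nodes before it) in which each AND gate shares at most TWO of the bits `y`.

(2) Every circuit with `s` nodes and AND-depth `d` in which each AND gate shares at most `μ` of the
bits `y` satisfies `k ≤ 2 ^ 26 (μ d + log s + 1)`. This holds for AND and OR gates of any fan-in,
for circuits with negations, and even if all predicates of the graph `G` are free of charge.

So, for all bounds `2 ≤ μ ≤ k ^ (1 - ε)` on the sharing, SC is not contained in NC: in polylogarithmic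
depth the size is `2 ^ (Ω k ^ ε)`. (That NC is not contained in SC if no AND gate shares a bit is the
result `MP_2af48a_lc.NarrowBrackets`.) The function itself has circuits of constant depth and
quadratic size; by (2) these share a linear number of the bits `y` at some AND gate.

Proof of (2): the general bound for functions which contain all conjunctions of disjunctions of
disjoint pairs of tracked bits (rectangles along a path of a proof tree and a random pairing), see
`Pool.Agent.TH708.Shr.Main`. For (1) take the clauses `y i ∨ y j ∨ ¬ G i j` one after the other.
-/

set_option autoImplicit false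

namespace Pool.Agent.Results.MP_1a6d78_lc.VertexCovers

open Pool.Agent.TH708.Shr Pool.Agent.TH708.Shr.Vc

/-- (1) For each `k ≥ 1` there is a circuit with `6 k ^ 2` nodes that decides whether `y` is a vertex
cover of the graph `G` on `Fin k`. Its leaves are literals of the bits `y` and negations of bits of
the adjacency matrix of `G`, its gates have at most two inputs, which are among the six preceding
nodes, and each AND gate shares at most two of the bits `y`. (2) Let `C` be any circuit for this
function with `s` nodes: literals of the bits `y`, arbitrary predicates of graphs, and AND and OR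
gates. If at most `m` of the bits `y` are shared on each path from the output `o` then
`k ≤ 2 ^ 26 (m + log s + 1)`; if `o` has AND-depth `dep o` and each AND gate shares at most `μ` of
the bits `y` then `k ≤ 2 ^ 26 (μ dep o + log s + 1)`. -/
theorem result :
    (∀ k : ℕ, 1 ≤ k → ∃ (C : Net (SimpleGraph (Fin k)) k (k * k * 6)) (o : Fin (k * k * 6)),
      (∀ G y, Val C G y o ↔ Covers G y) ∧
      (∀ g φ, C g = Kind.fn φ → ∃ i j, φ = fun G => ¬ G.Adj i j) ∧
      (∀ g l, (C g = Kind.and l ∨ C g = Kind.or l) →
        l.card ≤ 2 ∧ ∀ a ∈ l, a < g ∧ (g : ℕ) ≤ a + 6) ∧
      ∀ g, (shared C g).ncard ≤ 2) ∧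
    ∀ (k s : ℕ) (C : Net (SimpleGraph (Fin k)) k s) (o : Fin s),
      (∀ G y, Val C G y o ↔ Covers G y) →
      (∀ m, SharesLe C o m → k ≤ 2 ^ 26 * (m + Nat.log 2 s + 1)) ∧
      ∀ (dep : Fin s → ℕ) (μ : ℕ),
        (∀ g l, C g = Kind.and l → ∀ c ∈ l, dep c < dep g) →
        (∀ g l, C g = Kind.or l → ∀ c ∈ l, dep c ≤ dep g) →
        (∀ g, (shared C g).ncard ≤ μ) → k ≤ 2 ^ 26 * (μ * dep o + Nat.log 2 s + 1) :=
  ⟨fun _ hk => Vc.upper hk, fun _ _ C o hdec =>
    ⟨fun m hm => Vc.lower C o hdec m hm,
      fun dep μ h1 h2 h3 => Vc.lower C o hdec _ (sharesLe_of_depth dep μ h1 h2 h3)⟩⟩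

end Pool.Agent.Results.MP_1a6d78_lc.VertexCovers
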